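import Pool.Agent.N501.HS.Fin

set_option autoImplicit false

/-!
# Complex structures on affine torus bundles over closed surfaces

Let `k ≥ 3`. Let `M` be a smooth manifold which is a quotient of `Y × V` by a group `P`, where

* `Y` is the complex plane or the upper half plane, and `P` acts on it by holomorphic maps, properly
  discontinuously and cocompactly, so that `S = Y / P` is a closed Riemann surface,
* `F` is a nonconstant holomorphic function on `Y` with `F (γ z) - F z ∈ ℤ[i]`, in other words a
  branched covering of the elliptic curve `ℂ / ℤ[i]` by `S`,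
* `V` is a real vector space of dimension `2k - 2`, and `γ ∈ P` acts on `Y × V` by
  `(z, v) ↦ (γ z, A_γ v + b_γ(z))`, where `A` is an arbitrary representation of `P` on `V` such that
  the flat vector bundle with holonomy `A` is trivial as a smooth vector bundle (`G` is a frame), and
  `b_γ : Y → V` is smooth, and constant if `γ` acts trivially on `Y`.

Then `M` carries a complex structure.

Every closed oriented surface of genus `≥ 1` is a branched covering of the torus `ℂ / ℤ[i]`, and so
has a complex structure with such a function `F`. So the theorem applies to all bundles over closed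
oriented surfaces of genus `≥ 1` with fibre the torus `T ^ (2k - 2)` whose structure group is the
group of affine diffeomorphisms of the torus and whose flat bundle `V` is trivial: arbitrary
monodromies in `GL(2k - 2, ℤ)` and arbitrary twisting classes in `H²(S; ℤ ^ (2k - 2))`, for example
non-solvable monodromy groups. In dimension four (`k = 2`) the statement fails.

The idea of the proof: the fibre `V = ℂ ^ (k - 1)` has a family of linear complex structures which is
parametrised by the projective line (a line in the twistor space of `V`), and the theta functions of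
degree two at `n F(z)`, `n` large, define a map of `S` to the projective line. In the smooth frame
`G` this gives rows which solve the equation of holomorphy up to an error of bounded size, and the
error is removed by a contraction: the equation `∂̄ f = g` for sections of a line bundle of large
degree `l` is solved, with a small constant, by averaged kernels of size
`exp (- π l |F(z) - F(w)|²) / |z - w|`.
-/

namespace Pool.Agent.Results.MP_1d980c_gt.AffineTorusBundles

open Module TopologicalSpace
open scoped Manifold ContDiff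

theorem result (k : ℕ) (hk : 3 ≤ k)
    -- `Y` is the plane or the upper half plane
    (Y : Opens ℂ) (hY : (Y : Set ℂ) = Set.univ ∨ (Y : Set ℂ) = {z | 0 < z.im})
    -- a group of holomorphic maps of `Y`, properly discontinuous and cocompact
    (P : Type) [Group P] [MulAction P Y]
    (hol : ∀ γ : P, ContMDiff 𝓘(ℂ) 𝓘(ℂ) ∞ fun z : Y => γ • z)
    (hprop : ∀ K : Set Y, IsCompact K →
      {σ : Y → Y | ∃ γ : P, (σ = fun z => γ • z) ∧ ∃ z ∈ K, γ • z ∈ K}.Finite)
    (hcomp : ∃ K : Set Y, IsCompact K ∧ ∀ z, ∃ γ : P, γ • z ∈ K)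
    -- a nonconstant holomorphic map of `Y / P` to the elliptic curve `ℂ / ℤ[i]`
    (F : Y → ℂ) (hF : ContMDiff 𝓘(ℂ) 𝓘(ℂ) ∞ F) (hF' : ∃ z w, F z ≠ F w)
    (hFP : ∀ γ : P, ∃ m n : ℤ, ∀ z, F (γ • z) = F z + m + n * Complex.I)
    -- a representation of the group, and a smooth frame of its flat vector bundle
    (V : Type) [NormedAddCommGroup V] [NormedSpace ℝ V] [FiniteDimensional ℝ V]
    (hV : finrank ℝ V + 2 = 2 * k) (A : P →* (V →L[ℝ] V)) (G : Y → V ≃L[ℝ] V)
    (hG : ContMDiff 𝓘(ℝ, ℂ) 𝓘(ℝ, V →L[ℝ] V) ∞ fun z => (G z : V →L[ℝ] V))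
    (hGA : ∀ γ z v, G (γ • z) v = A γ (G z v))
    -- the translations
    (b : P → Y → V) (hb : ∀ γ, ContMDiff 𝓘(ℝ, ℂ) 𝓘(ℝ, V) ∞ (b γ))
    (hbc : ∀ γ δ z, b (γ * δ) z = A γ (b δ z) + b γ (δ • z))
    (hbk : ∀ γ, (∀ z : Y, γ • z = z) → ∃ v, ∀ z, b γ z = v)
    -- the smooth manifold `M`, the quotient of `Y × V` by `P`
    (M : Type) [TopologicalSpace M] [ChartedSpace (EuclideanSpace ℝ (Fin (2 * k))) M]
    [IsManifold (𝓡 (2 * k)) ∞ M] (π : Y × V → M) (hs : Function.Surjective π)
    (hl : IsLocalDiffeomorph (𝓘(ℝ, ℂ).prod 𝓘(ℝ, V)) (𝓡 (2 * k)) ∞ π)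
    (hπ : ∀ x y, π x = π y ↔ ∃ γ : P, (γ • x.1, A γ x.2 + b γ x.1) = y) :
    ∃ (N : Type) (_ : TopologicalSpace N) (_ : ChartedSpace (EuclideanSpace ℂ (Fin k)) N),
      IsManifold 𝓘(ℂ, EuclideanSpace ℂ (Fin k)) ∞ N ∧
      Nonempty (Diffeomorph (𝓡 (2 * k)) 𝓘(ℝ, EuclideanSpace ℂ (Fin k)) M N ∞) :=
  Pool.Agent.N501.HS.final k hk Y hY P hol hprop hcomp F hF hF' hFP V hV A G hG hGA b hb hbc hbk M
    π hs hl hπ

end Pool.Agent.Results.MP_1d980c_gt.AffineTorusBundles
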