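import Pool.Agent.N501.Fi
import Pool.Agent.N501.Ci
import Pool.Agent.W305.NC.Qu

set_option autoImplicit false

/-!
# Complex structures on quotients of extensions of the plane by a vector group

Let `k ≥ 3` and let `G` be a Lie group which is an extension of the vector group `ℝ²` by the vector
group `V = ℝ ^ (2k - 2)`. Such a group is given by two commuting endomorphisms `N₁`, `N₂` of `V` and
a smooth two-cocycle `c`: it is `ℝ² × V` with the product
`(a, w) (b, w') = (a + b, w + exp (a₁ N₁ + a₂ N₂) w' + c (a, b))`.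

Let `M` be a smooth manifold which is a quotient of `G` by left translations with elements of a set
`Γ` whose image in `ℝ²` is contained in a lattice of `ℝ²`. Then `M` carries a complex structure.

Examples are all compact nilmanifolds of dimension `2k ≥ 6` with an abelian ideal of codimension two
which is rational for `Γ` (among them the quotients of `F × ℝ²`, `F` the four-dimensional filiform
group, and the quotients of the filiform groups of dimension `2k` with an abelian ideal of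
codimension one), and all bundles over the torus `T²` with fibre the torus `T ^ (2k - 2)` and
monodromies `exp N₁`, `exp N₂`. Many of these groups have no left-invariant complex structure. In
dimension four (`k = 2`) the statement fails.

For every vector `v` of `V` there is a cocycle for which the Lie algebra of `G` is `ℝ X ⊕ ℝ Y ⊕ V`
with `[X, w] = N₁ w`, `[Y, w] = N₂ w` and `[X, Y] = v`: see `lieCocycle` and `lieCocycle_assoc`.

The idea of the proof: the fibre `V = ℂ ^ (k - 1)` has a family of linear complex structures which is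
parametrised by the projective line (a line in the twistor space of `V`), and theta functions of
degree two without common zeros define a map of a fine elliptic curve to the projective line. The
rows of this family are twisted by theta functions of a matrix argument, and this makes them
equivariant for the monodromies; the twisted family stays nondegenerate if the elliptic curve is
`ℝ² / (lattice / n)` with `n` large.
-/

namespace Pool.Agent.Results.MP_1d980c_gt.PlaneByVector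

open Module
open scoped Manifold ContDiff

/-- The product `(a, w) (b, w') = (a + b, w + exp (a₁ N₁ + a₂ N₂) w' + c (a, b))`. -/
noncomputable def mul {V : Type} [NormedAddCommGroup V] [NormedSpace ℝ V] (N₁ N₂ : V →L[ℝ] V)
    (c : ℝ × ℝ → ℝ × ℝ → V) (g h : (ℝ × ℝ) × V) : (ℝ × ℝ) × V :=
  (g.1 + h.1, g.2 + NormedSpace.exp (g.1.1 • N₁ + g.1.2 • N₂) h.2 + c g.1 h.1)

/-- The integral `∫₀ˢ exp (σ N) dσ`. -/
noncomputable def expInt {V : Type} [NormedAddCommGroup V] [NormedSpace ℝ V] (N : V →L[ℝ] V)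
    (s : ℝ) : V →L[ℝ] V :=
  ∫ σ in (0 : ℝ)..s, NormedSpace.exp (σ • N)

/-- The cocycle of the group with Lie algebra `ℝ X ⊕ ℝ Y ⊕ V`, `[X, w] = N₁ w`, `[Y, w] = N₂ w` and
`[X, Y] = v`. It is not used in the statement of `result`. -/
noncomputable def lieCocycle {V : Type} [NormedAddCommGroup V] [NormedSpace ℝ V]
    (N₁ N₂ : V →L[ℝ] V) (v : V) (a b : ℝ × ℝ) : V :=
  -(NormedSpace.exp (a.1 • N₁) (expInt N₁ b.1 (expInt N₂ a.2 v)))

theorem lieCocycle_contDiff {V : Type} [NormedAddCommGroup V] [NormedSpace ℝ V]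
    [FiniteDimensional ℝ V] (N₁ N₂ : V →L[ℝ] V) (v : V) :
    ContDiff ℝ ∞ fun p : (ℝ × ℝ) × (ℝ × ℝ) => lieCocycle N₁ N₂ v p.1 p.2 :=
  Pool.Agent.N501.Ci.contDiff_cv N₁ N₂ v

theorem lieCocycle_assoc {V : Type} [NormedAddCommGroup V] [NormedSpace ℝ V]
    [FiniteDimensional ℝ V] {N₁ N₂ : V →L[ℝ] V} (h : N₁ * N₂ = N₂ * N₁) (v : V)
    (g k l : (ℝ × ℝ) × V) :
    mul N₁ N₂ (lieCocycle N₁ N₂ v) (mul N₁ N₂ (lieCocycle N₁ N₂ v) g k) l =
      mul N₁ N₂ (lieCocycle N₁ N₂ v) g (mul N₁ N₂ (lieCocycle N₁ N₂ v) k l) :=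
  Pool.Agent.N501.Ci.cv_assoc h v g k l

theorem result (k : ℕ) (hk : 3 ≤ k) (V : Type) [NormedAddCommGroup V] [NormedSpace ℝ V]
    [FiniteDimensional ℝ V] (hV : finrank ℝ V + 2 = 2 * k)
    -- the Lie group `G`
    (N₁ N₂ : V →L[ℝ] V) (hN : N₁ * N₂ = N₂ * N₁) (c : ℝ × ℝ → ℝ × ℝ → V)
    (hc : ContDiff ℝ ∞ fun p : (ℝ × ℝ) × (ℝ × ℝ) => c p.1 p.2)
    (hassoc : ∀ g h l : (ℝ × ℝ) × V,
      mul N₁ N₂ c (mul N₁ N₂ c g h) l = mul N₁ N₂ c g (mul N₁ N₂ c h l))
    -- the set `Γ` of translations; its image in the plane is contained in a lattice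
    (Γ : Set ((ℝ × ℝ) × V)) (u₁ u₂ : ℝ × ℝ) (hu : u₁.1 * u₂.2 - u₁.2 * u₂.1 ≠ 0)
    (hΓ : ∀ γ ∈ Γ, ∃ a b : ℤ, γ.1 = a • u₁ + b • u₂)
    -- the smooth manifold `M`, a quotient of `G`
    (M : Type) [TopologicalSpace M] [ChartedSpace (EuclideanSpace ℝ (Fin (2 * k))) M]
    [IsManifold (𝓡 (2 * k)) ∞ M] (π : (ℝ × ℝ) × V → M) (hs : Function.Surjective π)
    (hl : IsLocalDiffeomorph 𝓘(ℝ, (ℝ × ℝ) × V) (𝓡 (2 * k)) ∞ π)
    (hπ : ∀ x y, π x = π y ↔ ∃ γ ∈ Γ, mul N₁ N₂ c γ x = y) :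
    ∃ (N : Type) (_ : TopologicalSpace N) (_ : ChartedSpace (EuclideanSpace ℂ (Fin k)) N),
      IsManifold 𝓘(ℂ, EuclideanSpace ℂ (Fin k)) ∞ N ∧
      Nonempty (Diffeomorph (𝓡 (2 * k)) 𝓘(ℝ, EuclideanSpace ℂ (Fin k)) M N ∞) := by
  obtain ⟨Φ, h1, h2, h3⟩ := Pool.Agent.N501.Fi.coords hk hV (N₁ := N₁) (N₂ := N₂) hN hc hassoc hu
  refine Pool.Agent.W305.NC.quotient Φ π hl h1 h2 {g | ∃ γ ∈ Γ, g = mul N₁ N₂ c γ} ?_ ?_ hs
  · rintro g ⟨γ, hγ, rfl⟩
    exact h3 γ (hΓ γ hγ)
  · intro x y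
    rw [hπ]
    constructor
    · rintro ⟨γ, hγ, hxy⟩
      exact ⟨mul N₁ N₂ c γ, ⟨γ, hγ, rfl⟩, hxy⟩
    · rintro ⟨g, ⟨γ, hγ, rfl⟩, hxy⟩
      exact ⟨γ, hγ, hxy⟩

end Pool.Agent.Results.MP_1d980c_gt.PlaneByVector
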